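import Pool.Agent.Lib_MP_638f75_lc.RFinal
import Pool.Agent.Lib_MP_638f75_lc.D1Main
import Pool.Agent.Lib_MP_638f75_lc.D2I
import Pool.Agent.Lib_MP_638f75_lc.H.SoundMain

/-!
# Recognising 1-bend and 2-bend RAC drawable graphs is NP-hard
-/

namespace Pool.Agent.Results.MP_638f75_lc.RACHard

/-- the straight segments of a polygonal chain which is given by the list of its points -/
def pieces (c : List (ℝ × ℝ)) : List ((ℝ × ℝ) × (ℝ × ℝ)) := c.zip c.tail

/-- A `k`-bend RAC drawing of the graph `G` in the plane: `pos v` is the point of the vertex `v`,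
`ch u v` is the list of the points of the polygonal chain of the edge `u v`, read from `u` to `v`. -/
structure RACDrawing (k : ℕ) {V : Type} (G : SimpleGraph V) (pos : V → ℝ × ℝ)
    (ch : V → V → List (ℝ × ℝ)) : Prop where
  /-- different vertices are placed at different points -/
  inj : Function.Injective pos
  /-- the chain of `v u` is the chain of `u v` read backwards -/
  rev : ∀ u v, G.Adj u v → ch v u = (ch u v).reverse
  /-- the chain of `u v` starts at the point of `u` (hence it ends at the point of `v`) -/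
  start : ∀ u v, G.Adj u v → (ch u v).head? = some (pos u)
  /-- at most `k` bends -/
  bends : ∀ u v, G.Adj u v → (ch u v).length ≤ k + 2
  /-- consecutive points of a chain are different -/
  ne : ∀ u v, G.Adj u v → (ch u v).IsChain (· ≠ ·)
  /-- a chain contains no vertex except its first and its last point -/
  avoid : ∀ u v, G.Adj u v → ∀ s ∈ pieces (ch u v), ∀ w, pos w ∈ segment ℝ s.1 s.2 →
    (w = u ∧ s.1 = pos u) ∨ (w = v ∧ s.2 = pos v)
  /-- two chains have only finitely many common points -/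
  fin : ∀ u v u' v', G.Adj u v → G.Adj u' v' → s(u, v) ≠ s(u', v') →
    {z | (∃ s ∈ pieces (ch u v), z ∈ segment ℝ s.1 s.2) ∧
      ∃ t ∈ pieces (ch u' v'), z ∈ segment ℝ t.1 t.2}.Finite
  /-- a common point of two edges is a common end of both or a crossing at a right angle in an
  interior point of a segment of each -/
  cross : ∀ u v u' v', G.Adj u v → G.Adj u' v' → s(u, v) ≠ s(u', v') →
    ∀ s ∈ pieces (ch u v), ∀ t ∈ pieces (ch u' v'), ∀ z, z ∈ segment ℝ s.1 s.2 →
      z ∈ segment ℝ t.1 t.2 →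
      (∃ w, (w = u ∨ w = v) ∧ (w = u' ∨ w = v') ∧ z = pos w) ∨
      (z ∈ openSegment ℝ s.1 s.2 ∧ z ∈ openSegment ℝ t.1 t.2 ∧
        (s.2.1 - s.1.1) * (t.2.1 - t.1.1) + (s.2.2 - s.1.2) * (t.2.2 - t.1.2) = 0)

/-- the polygonal chain `c` does not meet itself -/
def Simple (c : List (ℝ × ℝ)) : Prop :=
  ∀ i j : ℕ, ∀ s t : (ℝ × ℝ) × (ℝ × ℝ), i < j → (pieces c)[i]? = some s →
    (pieces c)[j]? = some t → ∀ z, z ∈ segment ℝ s.1 s.2 → z ∈ segment ℝ t.1 t.2 →
      j = i + 1 ∧ z = s.2

open Classical in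
/-- the code of a graph on `Fin n`: its adjacency matrix as a list of lists of bits -/
noncomputable def graphCode {n : ℕ} (G : SimpleGraph (Fin n)) : List Bool :=
  N487b59b3.bitEncode (List.ofFn fun i => List.ofFn fun j => decide (G.Adj i j))

/-- Every language `L` in `NP` is reduced in polynomial time to the recognition of graphs with a
`k`-bend RAC drawing, `k = 1, 2`: if `w` is in `L` then the graph with the code `f w` has a `k`-bend RAC
drawing, even one in which no chain meets itself, and if it has a `k`-bend RAC drawing (the chains may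
cross themselves) then `w` is in `L`. -/
theorem result : ∀ k : ℕ, (k = 1 ∨ k = 2) → ∀ L ∈ N68a2faeb.NP,
    ∃ f : List Bool → List Bool, N68a2faeb.IsPolyTime f ∧
      ∀ w : List Bool, ∃ (n : ℕ) (G : SimpleGraph (Fin n)), f w = graphCode G ∧
        (L w = true → ∃ pos ch, RACDrawing k G pos ch ∧ ∀ u v, G.Adj u v → Simple (ch u v)) ∧
        ((∃ pos ch, RACDrawing k G pos ch) → L w = true) := by
  have key : ∀ (k n : ℕ) (G : SimpleGraph (Fin n)),
      (RAC.SD k G → ∃ pos ch, RACDrawing k G pos ch ∧ ∀ u v, G.Adj u v → Simple (ch u v)) ∧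
      ((∃ pos ch, RACDrawing k G pos ch) → RAC.WD k G) := by
    intro k n G
    constructor
    · rintro ⟨pos, ch, h⟩
      refine ⟨pos, ch, ⟨h.inj, h.rev, h.head, h.len, h.nondeg, h.avoid, ?_, ?_⟩, ?_⟩
      · intro u v u' v' h1 h2 h3
        exact h.finite u v u' v' h1 h2 h3
      · intro u v u' v' h1 h2 h3 s hs t ht z hz hz'
        exact h.cross u v u' v' h1 h2 h3 s hs t ht z hz hz'
      · intro u v h1
        exact h.simple u v h1
    · rintro ⟨pos, ch, h⟩
      exact ⟨pos, ch, ⟨h.inj, h.rev, h.start, h.bends, h.ne, h.avoid,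
        fun u v u' v' h1 h2 h3 s hs t ht z hz hz' => h.cross u v u' v' h1 h2 h3 s hs t ht z hz hz'⟩⟩
  rintro k (rfl | rfl) L hL
  · obtain ⟨M, hM⟩ := RAC.SOUND_1
    obtain ⟨f, hf, h⟩ := RAC.hard1 hM RAC.COMPL_1 L hL
    refine ⟨f, hf, fun w => ?_⟩
    obtain ⟨n, G, h1, h2, h3⟩ := h w
    exact ⟨n, G, h1, fun hw => (key 1 n G).1 (h2 hw), fun hd => h3 ((key 1 n G).2 hd)⟩
  · obtain ⟨M, hM⟩ := RAC.SOUND_2
    obtain ⟨f, hf, h⟩ := RAC.hard2 hM RAC.COMPL_2 L hL
    refine ⟨f, hf, fun w => ?_⟩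
    obtain ⟨n, G, h1, h2, h3⟩ := h w
    exact ⟨n, G, h1, fun hw => (key 2 n G).1 (h2 hw), fun hd => h3 ((key 2 n G).2 hd)⟩

end Pool.Agent.Results.MP_638f75_lc.RACHard
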